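import Pool.Agent.N304.NT.H

/-! # Normality is decided by one set in the rational affine images

Let `E ⊆ [0, 1)` be any finite union of intervals of total length `0 < |E| < 1`, for instance the set
of the numbers whose first digit lies in a given set `D` of digits. A real number `x` is normal in base
`b` if and only if, for all integers `m ≥ 1` and all rational `r`, the fractional parts of
`(m x + r) b ^ n` visit `E` with upper frequency at most `|E|`. It is enough to take `m` in the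
multiples of some `q`, and `r = a / (b ^ l - 1)` with `l` in some infinite set. If `x` is not normal,
then for some `m` and `c > 0`, for all large `l`, a proportion at least `c / l` of the numbers
`m x + a / (b ^ l - 1)` has too many visits, and as many have too few, by at least `c / l`.

If `E` is given by a set `D` of digits whose Fourier transform `∑_{d ∈ D} e(s d / b)`, `0 < s < b`, has
no zero, the translates `x + a / (b ^ l - 1)` are enough.

Proof. The expansion of `a / (b ^ l - 1)` has period `l`. The discrete Fourier transform over `a` of the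
number of the visits of `x + a / (b ^ l - 1)` up to `N`, at a frequency `s` not divisible by `b`, is,
divided by `b ^ l - 1`, close to `C(s)` times the exponential sum `∑_{n < N} e(s b ^ n x)`, where
`C(s) = ∑_{k ≥ 0} f^(s b ^ k)` and `f^` are the Fourier coefficients of `E`. The mean over `a` of the
deviations tends to `0`, so that if no deviation is positive, their first moment is small. It remains to
find one `s` with `C(s) ≠ 0`: else all values of the function `∑_k b ^ k E_k` would be those of a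
coboundary, which is excluded by the jumps of `E`. Multiples `m x` and the theorem of Wall finish the
proof.
-/

set_option autoImplicit false

open Filter Topology
open scoped Real

namespace Pool.Agent.Results.MP_57632f_nt.AnySetOfDigits

/-- the `i`-th digit of `x` after the point in base `b` -/
noncomputable def digit (b : ℕ) (x : ℝ) (i : ℕ) : ℤ := ⌊x * (b : ℝ) ^ i⌋ % (b : ℤ)

/-- the number of `1 ≤ i ≤ N` such that the word `w` of length `k` occurs in `x` at the place `i` -/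
noncomputable def count (b : ℕ) (x : ℝ) (k : ℕ) (w : ℕ → ℤ) (N : ℕ) : ℕ :=
  ((Finset.Icc 1 N).filter fun i => ∀ j < k, digit b x (i + j) = w j).card

/-- `x` is normal in base `b`: every word `w` of `k` digits has the frequency `b ^ (-k)` -/
def Normal (b : ℕ) (x : ℝ) : Prop := ∀ k : ℕ, 1 ≤ k → ∀ w : ℕ → ℤ, (∀ j < k, 0 ≤ w j ∧ w j < b) →
  Tendsto (fun N : ℕ => (count b x k w N : ℝ) / (N : ℝ)) atTop (𝓝 (1 / (b : ℝ) ^ k))

open Classical in
/-- the number of `1 ≤ i ≤ N` for which the `i`-th digit of `x` lies in `D` -/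
noncomputable def digitCount (b : ℕ) (x : ℝ) (D : Finset ℕ) (N : ℕ) : ℕ :=
  ((Finset.Icc 1 N).filter fun i => ∃ d ∈ D, digit b x i = (d : ℤ)).card

/-- `I` is a finite set of pairs `(s, t)` such that the intervals `[s, t)` are non-empty, contained in
`[0, 1)` and disjoint -/
def IsSet (I : Finset (ℝ × ℝ)) : Prop :=
  (∀ p ∈ I, 0 ≤ p.1 ∧ p.1 < p.2 ∧ p.2 ≤ 1) ∧ ∀ p ∈ I, ∀ q ∈ I, p ≠ q → p.2 ≤ q.1 ∨ q.2 ≤ p.1

/-- the total length of the intervals -/
noncomputable def len (I : Finset (ℝ × ℝ)) : ℝ := ∑ p ∈ I, (p.2 - p.1)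

open Classical in
/-- the number of `n < N` for which the fractional part of `x b ^ n` lies in the union of the
intervals `[s, t)`, `(s, t) ∈ I` -/
noncomputable def hits (b : ℕ) (x : ℝ) (I : Finset (ℝ × ℝ)) (N : ℕ) : ℕ :=
  ((Finset.range N).filter fun n : ℕ => ∃ p ∈ I, p.1 ≤ Int.fract (x * (b : ℝ) ^ n) ∧
    Int.fract (x * (b : ℝ) ^ n) < p.2).card

/-- the upper frequency is at most `δ` -/
def UpperLe (c : ℕ → ℕ) (δ : ℝ) : Prop :=
  ∀ ε : ℝ, 0 < ε → ∀ᶠ N : ℕ in atTop, (c N : ℝ) ≤ (δ + ε) * N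

/-- the lower frequency is at least `δ` -/
def LowerGe (c : ℕ → ℕ) (δ : ℝ) : Prop :=
  ∀ ε : ℝ, 0 < ε → ∀ᶠ N : ℕ in atTop, (δ - ε) * N ≤ (c N : ℝ)

open Classical in
/-- Let `b ≥ 2`.
(1) Let `E` be a finite union of intervals in `[0, 1)` of total length `0 < |E| < 1`, let `q ≥ 1` and
let `L` be an infinite set of natural numbers. A real number `x` is normal in base `b` if and only if
`E` is visited with upper frequency at most `|E|` by the fractional parts of `y b ^ n`, for all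
`y = m x + a / (b ^ l - 1)` with `m ≥ 1` divisible by `q`, `l ∈ L` and `0 ≤ a < b ^ l - 1`; and if and
only if `E` is visited with lower frequency at least `|E|` for all these `y`. If `x` is normal, then `E`
has the frequency `|E|` for all `y = m x + r` with `m ≠ 0` and `r` rational. If `x` is not normal, then
there are `m ≥ 1` and `c > 0` such that, for all large `l`, at least `(c / l) b ^ l` of the numbers
`y = m x + a / (b ^ l - 1)` have upper frequency of `E` at least `|E| + c / l`, and as many have lower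
frequency of `E` at most `|E| - c / l`.
(2) Let `D` be a non-empty proper set of base-`b` digits. Then `x` is normal if and only if, in all the
numbers `m x + a / (b ^ l - 1)` as above, the digits in `D` have upper frequency at most `|D| / b`; and
if and only if they have lower frequency at least `|D| / b` in all of them. If no sum
`∑_{d ∈ D} e(s d / b)`, `0 < s < b`, vanishes, it is enough to know this for `m = 1`.
(3) `π` is normal in base `10` if and only if in all the numbers `m π + a / (10 ^ l - 1)` the odd digits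
have upper frequency at most `1 / 2`, and if and only if in all the numbers `π + a / (10 ^ l - 1)` the
prime digits `2, 3, 5, 7` have upper frequency at most `2 / 5`. -/
theorem result :
    (∀ b : ℕ, 2 ≤ b → ∀ I : Finset (ℝ × ℝ), IsSet I → 0 < len I → len I < 1 → ∀ x : ℝ,
      (∀ q : ℕ, 1 ≤ q → ∀ L : Set ℕ, L.Infinite →
        (Normal b x ↔ ∀ m : ℕ, 1 ≤ m → q ∣ m → ∀ l ∈ L, ∀ a : ℕ, a < b ^ l - 1 →
          UpperLe (hits b (m * x + a / ((b : ℝ) ^ l - 1)) I) (len I)) ∧
        (Normal b x ↔ ∀ m : ℕ, 1 ≤ m → q ∣ m → ∀ l ∈ L, ∀ a : ℕ, a < b ^ l - 1 →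
          LowerGe (hits b (m * x + a / ((b : ℝ) ^ l - 1)) I) (len I))) ∧
      (Normal b x → ∀ m r : ℚ, m ≠ 0 →
        Tendsto (fun N : ℕ => (hits b (m * x + r) I N : ℝ) / (N : ℝ)) atTop (𝓝 (len I))) ∧
      (¬ Normal b x → ∃ m : ℕ, 1 ≤ m ∧ ∃ c : ℝ, 0 < c ∧ ∀ᶠ l : ℕ in atTop,
        c / l * (b : ℝ) ^ l ≤ (((Finset.range (b ^ l - 1)).filter fun a : ℕ =>
          ∃ᶠ N : ℕ in atTop,
            (len I + c / l) * N ≤ (hits b (m * x + a / ((b : ℝ) ^ l - 1)) I N : ℝ)).card : ℝ) ∧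
        c / l * (b : ℝ) ^ l ≤ (((Finset.range (b ^ l - 1)).filter fun a : ℕ =>
          ∃ᶠ N : ℕ in atTop,
            (hits b (m * x + a / ((b : ℝ) ^ l - 1)) I N : ℝ) ≤ (len I - c / l) * N).card : ℝ))) ∧
    (∀ b : ℕ, 2 ≤ b → ∀ D : Finset ℕ, (∀ d ∈ D, d < b) → D.Nonempty → D.card < b → ∀ x : ℝ,
      ∀ L : Set ℕ, L.Infinite →
      (∀ q : ℕ, 1 ≤ q →
        (Normal b x ↔ ∀ m : ℕ, 1 ≤ m → q ∣ m → ∀ l ∈ L, ∀ a : ℕ, a < b ^ l - 1 →
          UpperLe (digitCount b (m * x + a / ((b : ℝ) ^ l - 1)) D) (D.card / b)) ∧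
        (Normal b x ↔ ∀ m : ℕ, 1 ≤ m → q ∣ m → ∀ l ∈ L, ∀ a : ℕ, a < b ^ l - 1 →
          LowerGe (digitCount b (m * x + a / ((b : ℝ) ^ l - 1)) D) (D.card / b))) ∧
      ((∀ s : ℕ, 1 ≤ s → s < b → ∑ d ∈ D, Complex.exp (2 * π * Complex.I * (s * d / b)) ≠ 0) →
        (Normal b x ↔ ∀ l ∈ L, ∀ a : ℕ, a < b ^ l - 1 →
          UpperLe (digitCount b (x + a / ((b : ℝ) ^ l - 1)) D) (D.card / b)) ∧
        (Normal b x ↔ ∀ l ∈ L, ∀ a : ℕ, a < b ^ l - 1 →
          LowerGe (digitCount b (x + a / ((b : ℝ) ^ l - 1)) D) (D.card / b)))) ∧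
    ((Normal 10 π ↔ ∀ m : ℕ, 1 ≤ m → ∀ l : ℕ, ∀ a : ℕ, a < 10 ^ l - 1 →
        UpperLe (digitCount 10 (m * π + a / ((10 : ℝ) ^ l - 1)) {1, 3, 5, 7, 9}) (1 / 2)) ∧
      (Normal 10 π ↔ ∀ l : ℕ, ∀ a : ℕ, a < 10 ^ l - 1 →
        UpperLe (digitCount 10 (π + a / ((10 : ℝ) ^ l - 1)) {2, 3, 5, 7}) (2 / 5))) := by
  have key1 : ∀ b : ℕ, 2 ≤ b → ∀ I : Finset (ℝ × ℝ), IsSet I → ∀ x : ℝ, Normal b x →
      ∀ m r : ℚ, m ≠ 0 →
        Tendsto (fun N : ℕ => (hits b (m * x + r) I N : ℝ) / (N : ℝ)) atTop (𝓝 (len I)) :=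
    fun b hb I hI x hx m r hm => N304.NT.tendsto_of_normal b hb I hI x hx m r hm
  have key2 : ∀ b : ℕ, 2 ≤ b → ∀ D : Finset ℕ, (∀ d ∈ D, d < b) → ∀ x : ℝ, Normal b x →
      ∀ m r : ℚ, m ≠ 0 →
        Tendsto (fun N : ℕ => (digitCount b (m * x + r) D N : ℝ) / (N : ℝ)) atTop
          (𝓝 ((D.card : ℝ) / b)) :=
    fun b hb D hD x hx m r hm => N304.NT.digits_tendsto b hb D hD x hx m r hm
  have cast : ∀ (b m a l : ℕ) (x : ℝ), (m : ℝ) * x + a / ((b : ℝ) ^ l - 1) =
      ((m : ℚ) : ℝ) * x + (((a : ℚ) / ((b : ℚ) ^ l - 1) : ℚ) : ℝ) := by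
    intro b m a l x
    push_cast
    ring
  have hm0 : ∀ m : ℕ, 1 ≤ m → (m : ℚ) ≠ 0 := fun m hm => by exact_mod_cast (by omega : m ≠ 0)
  have part2 : ∀ b : ℕ, 2 ≤ b → ∀ D : Finset ℕ, (∀ d ∈ D, d < b) → D.Nonempty → D.card < b →
      ∀ x : ℝ, ∀ L : Set ℕ, L.Infinite →
      (∀ q : ℕ, 1 ≤ q →
        (Normal b x ↔ ∀ m : ℕ, 1 ≤ m → q ∣ m → ∀ l ∈ L, ∀ a : ℕ, a < b ^ l - 1 →
          UpperLe (digitCount b (m * x + a / ((b : ℝ) ^ l - 1)) D) (D.card / b)) ∧
        (Normal b x ↔ ∀ m : ℕ, 1 ≤ m → q ∣ m → ∀ l ∈ L, ∀ a : ℕ, a < b ^ l - 1 →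
          LowerGe (digitCount b (m * x + a / ((b : ℝ) ^ l - 1)) D) (D.card / b))) ∧
      ((∀ s : ℕ, 1 ≤ s → s < b → ∑ d ∈ D, Complex.exp (2 * π * Complex.I * (s * d / b)) ≠ 0) →
        (Normal b x ↔ ∀ l ∈ L, ∀ a : ℕ, a < b ^ l - 1 →
          UpperLe (digitCount b (x + a / ((b : ℝ) ^ l - 1)) D) (D.card / b)) ∧
        (Normal b x ↔ ∀ l ∈ L, ∀ a : ℕ, a < b ^ l - 1 →
          LowerGe (digitCount b (x + a / ((b : ℝ) ^ l - 1)) D) (D.card / b))) := by
    intro b hb D hD hne hc x L hL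
    have cast1 : ∀ (a l : ℕ), x + a / ((b : ℝ) ^ l - 1) =
        ((1 : ℚ) : ℝ) * x + (((a : ℚ) / ((b : ℚ) ^ l - 1) : ℚ) : ℝ) := by
      intro a l
      push_cast
      ring
    refine ⟨fun q hq => ⟨⟨fun hx m hm _ l _ a _ => ?_, fun h => ?_⟩,
      ⟨fun hx m hm _ l _ a _ => ?_, fun h => ?_⟩⟩, fun hF => ⟨⟨fun hx l _ a _ => ?_, fun h => ?_⟩,
      ⟨fun hx l _ a _ => ?_, fun h => ?_⟩⟩⟩
    · rw [cast]
      exact N304.NT.upper_of_tendsto (key2 b hb D hD x hx _ _ (hm0 m hm))
    · exact N304.NT.normal_of_digits_upper b hb D hD hne hc q hq L hL x h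
    · rw [cast]
      exact N304.NT.lower_of_tendsto (key2 b hb D hD x hx _ _ (hm0 m hm))
    · exact N304.NT.normal_of_digits_lower b hb D hD hne hc q hq L hL x h
    · rw [cast1]
      exact N304.NT.upper_of_tendsto (key2 b hb D hD x hx _ _ one_ne_zero)
    · exact N304.NT.normal_of_translates b hb D hD hF L hL x (Or.inl h)
    · rw [cast1]
      exact N304.NT.lower_of_tendsto (key2 b hb D hD x hx _ _ one_ne_zero)
    · exact N304.NT.normal_of_translates b hb D hD hF L hL x (Or.inr h)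
  refine ⟨fun b hb I hI h0 h1 x => ⟨fun q hq L hL => ⟨⟨fun hx m hm _ l _ a _ => ?_, fun h => ?_⟩,
    ⟨fun hx m hm _ l _ a _ => ?_, fun h => ?_⟩⟩, key1 b hb I hI x, fun hx => ?_⟩, part2, ?_, ?_⟩
  · rw [cast]
    exact N304.NT.upper_of_tendsto (key1 b hb I hI x hx _ _ (hm0 m hm))
  · exact N304.NT.normal_of_upper b hb I hI h0 h1 q hq L hL x h
  · rw [cast]
    exact N304.NT.lower_of_tendsto (key1 b hb I hI x hx _ _ (hm0 m hm))
  · exact N304.NT.normal_of_lower b hb I hI h0 h1 q hq L hL x h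
  · exact N304.NT.many_of_not_normal b hb I hI h0 h1 x hx
  · have h := ((part2 10 (by norm_num) {1, 3, 5, 7, 9} (by decide) (by decide) (by decide) π Set.univ
      Set.infinite_univ).1 1 le_rfl).1
    rw [h]
    have e : (((({1, 3, 5, 7, 9} : Finset ℕ).card : ℕ) : ℝ) / ((10 : ℕ) : ℝ)) = 1 / 2 := by
      have : ({1, 3, 5, 7, 9} : Finset ℕ).card = 5 := by decide
      rw [this]
      norm_num
    constructor
    · intro H m hm l a ha
      have h2 := H m hm (one_dvd m) l trivial a ha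
      rw [e] at h2
      exact_mod_cast h2
    · intro H m hm _ l _ a ha
      rw [e]
      exact_mod_cast H m hm l a ha
  · have h := ((part2 10 (by norm_num) {2, 3, 5, 7} (by decide) (by decide) (by decide) π Set.univ
      Set.infinite_univ).2 N304.NT.prime_digits).1
    rw [h]
    have e : (((({2, 3, 5, 7} : Finset ℕ).card : ℕ) : ℝ) / ((10 : ℕ) : ℝ)) = 2 / 5 := by
      have : ({2, 3, 5, 7} : Finset ℕ).card = 4 := by decide
      rw [this]
      norm_num
    constructor
    · intro H l a ha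
      have h2 := H l trivial a ha
      rw [e] at h2
      exact_mod_cast h2
    · intro H l _ a ha
      rw [e]
      exact_mod_cast H l a ha

end Pool.Agent.Results.MP_57632f_nt.AnySetOfDigits
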