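import Pool.Agent.N586.KO.Tn4
import Pool.Agent.N586.JT.Bw
import Pool.Agent.N586.JT.Bt
import Pool.Agent.N586.GF.Sum3
import Pool.Agent.N586.GF.FrFin
import Pool.Agent.N586.GF.FrMeas

/-!
# Nearly all elements of `ℚ(π)` are normal up to `(log H) ^ (3 / 2 - ε)` digits

Let `δ, β > 0` with `2 δ + β < 1`. We show that nearly all elements `P(π) / Q(π)` of the field `ℚ(π)`
behave, together with all their multiples by small elements of the field, like independent random
numbers in their digits between `C log H` and `(log H) ^ (1 + δ)`, where `H` bounds the coefficients of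
`P` and `Q` and their degree is bounded. Already for degree `0` this is new: for all pairs
`1 ≤ a, q ≤ H` but at most `H ^ 2 exp (-(log H) ^ β)`, all tuples of numbers `a / q * g_j (π)` with
linearly independent integral polynomials `g_j` of degree at most `d` and with coefficients at most
`exp ((log H) ^ β)` have in every base `b ≤ B` all digit matrices with the right frequency in all these
windows.

The same is proved for the field `ℚ(ξ)` of every real number `ξ` with a transcendence measure of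
polynomial type in every degree. By the theorems of the library of `TH456`, this includes all
transcendental numbers which are algebraic over `ℚ(π)`, `ℚ(e)` or `ℚ(log a)`, `a` rational.

Proof. The exponential sums of `e(θ a / q)` over all pairs `(a, q)` in short progressions of `a` and `q`
are bounded by Vinogradov's method for `θ` up to `exp ((log H) ^ (1 + δ))`. These are applied to
`θ = b ^ n g(ξ) / f(ξ)` (with the transcendence measure for the lower bound) in one coefficient of `P`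
and one of `Q`. They give the Fourier coefficients of the joint distribution of the tuples, and a large
deviation argument gives all windows with an exceptional proportion which is smaller than the inverse
of the number of the tuples.
-/

set_option autoImplicit false

namespace Pool.Agent.Results.MP_57632f_nt.FieldsOfPi

/-- the word of the `k` digits in base `b` of `y` which follow the first `n` digits after the point,
read as an integer between `0` and `b ^ k - 1` -/
noncomputable def word (b k n : ℕ) (y : ℝ) : ℕ :=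
  ⌊(b : ℝ) ^ k * Int.fract ((b : ℝ) ^ n * y)⌋₊

/-- in every base `2 ≤ b ≤ B` every `r × k` digit matrix, `k ≥ 1` (row `j` is the word `D j` of `y j`),
occurs `N / b ^ (k r)` times, up to `ε N + E`, at the `N` places `s, …, s + N - 1`, for every window
with `L₀ ≤ s` and `s + N ≤ L` -/
def NormalIn {r : ℕ} (B : ℕ) (L₀ L ε E : ℝ) (y : Fin r → ℝ) : Prop :=
  ∀ (b k s N : ℕ) (D : Fin r → ℕ), 2 ≤ b → b ≤ B → 1 ≤ k → (∀ j, D j < b ^ k) →
    L₀ ≤ s → (s : ℝ) + N ≤ L →
    |(({i : ℕ | i < N ∧ ∀ j, word b k (s + i) (y j) = D j}.ncard : ℕ) : ℝ) -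
      N / ((b : ℝ) ^ k) ^ r| ≤ ε * N + E

/-- the value `p 0 + p 1 ξ + … + p D ξ ^ D` of the polynomial with the coefficients `p` -/
noncomputable def value (ξ : ℝ) {D : ℕ} (p : Fin (D + 1) → ℤ) : ℝ := ∑ i, (p i : ℝ) * ξ ^ (i : ℕ)

/-- `ξ` has a transcendence measure of polynomial type in every degree `D` -/
def Measure (ξ : ℝ) : Prop := ∀ D : ℕ, ∃ κ c : ℝ, 0 ≤ κ ∧ 0 < c ∧ ∀ p : Fin (D + 1) → ℤ, p ≠ 0 →
  ∀ H : ℝ, 1 ≤ H → (∀ i, |(p i : ℝ)| ≤ H) → c ≤ H ^ κ * |value ξ p|

/-- the coefficients of the polynomials `g j` and `f` are at most `V`, `f ≠ 0` and the `g j` are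
linearly independent -/
def Small {r d : ℕ} (V : ℝ) (g : Fin r → Fin (d + 1) → ℤ) (f : Fin (d + 1) → ℤ) : Prop :=
  (∀ j i, |(g j i : ℝ)| ≤ V) ∧ (∀ i, |(f i : ℝ)| ≤ V) ∧ f ≠ 0 ∧ LinearIndependent ℤ g

theorem normalIn_of {r B n0 : ℕ} {L₀ L ε E : ℝ} {y : Fin r → ℝ} (hn0 : n0 = ⌈L₀⌉₊)
    (h : Pool.Agent.N586.GF.NwA B n0 L ε E y) : NormalIn B L₀ L ε E y := by
  classical
  intro b k s N D hb hbB hk hD hs hsN
  have h1 := h b k hb hbB k s N D hk le_rfl hD (by rw [hn0]; exact Nat.ceil_le.2 hs) hsN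
  have h2 : {i : ℕ | i < N ∧ ∀ j, word b k (s + i) (y j) = D j} =
      (((Finset.range N).filter
        (fun i => ∀ j, Pool.Agent.Y933.KD.wd b k (s + i) (y j) = D j) : Finset ℕ) : Set ℕ) := by
    ext i
    simp only [Set.mem_ofPred_eq, Finset.coe_filter, Finset.mem_range]
    rfl
  rw [h2, Set.ncard_coe_finset]
  exact h1

theorem measure_of_measT {ξ : ℝ} (h : Pool.Agent.TH456.TM.MeasT (ξ : ℂ)) : Measure ξ :=
  fun D => Pool.Agent.N586.GF.measV_of_measT ξ h D

theorem measure_of_isAlgebraic {x ξ : ℝ} (hx : Pool.Agent.TH456.TM.MeasT (x : ℂ))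
    (hξ : Transcendental ℤ ξ) (h : IsAlgebraic (Algebra.adjoin ℤ ({x} : Set ℝ)) ξ) : Measure ξ := by
  apply measure_of_measT
  have hmem : ∀ a : Algebra.adjoin ℤ ({x} : Set ℝ),
      ((a : ℝ) : ℂ) ∈ Algebra.adjoin ℤ ({(x : ℂ)} : Set ℂ) := by
    intro a
    have h1 : (Complex.ofRealHom.toIntAlgHom : ℝ →ₐ[ℤ] ℂ) (a : ℝ) ∈
        (Algebra.adjoin ℤ ({x} : Set ℝ)).map (Complex.ofRealHom.toIntAlgHom : ℝ →ₐ[ℤ] ℂ) :=
      ⟨a, a.2, rfl⟩
    rw [AlgHom.map_adjoin, Set.image_singleton] at h1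
    exact h1
  let φ : Algebra.adjoin ℤ ({x} : Set ℝ) →+* Algebra.adjoin ℤ ({(x : ℂ)} : Set ℂ) :=
    { toFun := fun a => ⟨((a : ℝ) : ℂ), hmem a⟩
      map_one' := by ext; simp
      map_mul' := fun a b => by ext; simp
      map_zero' := by ext; simp
      map_add' := fun a b => by ext; simp }
  refine Pool.Agent.TH456.TM.measT_of_isAlgebraic hx _ ?_ ?_
  · refine h.ringHom_of_comp_eq φ Complex.ofRealHom ?_ ?_
    · intro a b hab
      have h1 : ((a : ℝ) : ℂ) = ((b : ℝ) : ℂ) := congrArg Subtype.val hab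
      exact Subtype.ext (Complex.ofReal_injective h1)
    · ext a
      rfl
  · exact hξ.ringHom_of_comp_eq (RingHom.id ℤ) Complex.ofRealHom Function.surjective_id
      Complex.ofReal_injective (RingHom.ext_int _ _)

/-- Let `δ, β > 0`, `2 δ + β < 1`, `ε > 0`, `B`, `d`, `D` and `r ≥ 1` be given. (1) There is `C` such
that for all large `H`, for all `1 ≤ a, q ≤ H` but at most `H ^ 2 exp (-(log H) ^ β)`, all tuples
`a / q * g_1(π), …, a / q * g_r(π)` with linearly independent integral polynomials `g_j` of degree at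
most `d` and with coefficients at most `exp ((log H) ^ β)` satisfy
`NormalIn B (C log H) ((log H) ^ (1 + δ)) ε (ε log H)`. (2) Let `ξ` be a real number with a
transcendence measure of polynomial type. There is `C` such that for all large `H`, for all pairs
`(p, q)` of integral polynomials of degree at most `D` with coefficients at most `H`, except for a
proportion of at most `exp (-(log H) ^ β)`, one has `q(ξ) ≠ 0`, and for all `Small` `g`, `f` of degree
at most `d` and height at most `exp ((log H) ^ β)` the tuple `g_j(ξ) / f(ξ) * (p(ξ) / q(ξ))` satisfies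
`NormalIn B (C log H) ((log H) ^ (1 + δ)) ε (ε log H)`. (3) All transcendental real numbers which are
algebraic over `ℤ[π]`, `ℤ[e]` or `ℤ[log a]`, `a ≠ 1` a positive rational number, have such a measure. -/
theorem result (δ β ε : ℝ) (B r d : ℕ) (hδ : 0 < δ) (hβ : 0 < β) (hδβ : 2 * δ + β < 1) (hε : 0 < ε)
    (hr : 1 ≤ r) :
    (∃ C : ℝ, 0 < C ∧ ∃ H₀ : ℕ, ∀ H : ℕ, H₀ ≤ H →
      (({z : ℕ × ℕ | 1 ≤ z.1 ∧ z.1 ≤ H ∧ 1 ≤ z.2 ∧ z.2 ≤ H ∧ ¬ ∀ g : Fin r → Fin (d + 1) → ℤ,
        (∀ j i, |(g j i : ℝ)| ≤ Real.exp ((Real.log H) ^ β)) → LinearIndependent ℤ g →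
        NormalIn B (C * Real.log H) ((Real.log H) ^ (1 + δ)) ε (ε * Real.log H)
          (fun j => (z.1 : ℝ) / z.2 * value Real.pi (g j))}.ncard : ℕ) : ℝ) ≤
        Real.exp (-(Real.log H) ^ β) * (H : ℝ) ^ 2) ∧
    (∀ (ξ : ℝ) (D : ℕ), Measure ξ →
      ∃ C : ℝ, 0 < C ∧ ∃ H₀ : ℕ, ∀ H : ℕ, H₀ ≤ H →
      (({z : (Fin (D + 1) → ℤ) × (Fin (D + 1) → ℤ) | (∀ i, |z.1 i| ≤ H) ∧ (∀ i, |z.2 i| ≤ H) ∧
        ¬ (value ξ z.2 ≠ 0 ∧ ∀ (g : Fin r → Fin (d + 1) → ℤ) (f : Fin (d + 1) → ℤ),
        Small (Real.exp ((Real.log H) ^ β)) g f →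
        NormalIn B (C * Real.log H) ((Real.log H) ^ (1 + δ)) ε (ε * Real.log H)
          (fun j => value ξ (g j) / value ξ f * (value ξ z.1 / value ξ z.2)))}.ncard : ℕ) : ℝ) ≤
        Real.exp (-(Real.log H) ^ β) * (2 * H + 1) ^ (2 * (D + 1))) ∧
    (∀ ξ x : ℝ, (x = Real.pi ∨ x = Real.exp 1 ∨ ∃ a : ℚ, 0 < a ∧ a ≠ 1 ∧ x = Real.log a) →
      Transcendental ℤ ξ → IsAlgebraic (Algebra.adjoin ℤ ({x} : Set ℝ)) ξ → Measure ξ) := by
  classical
  have hgen : ∀ β' : ℝ, 0 < β' → 2 * δ + β' < 1 → ∀ (ξ : ℝ) (D : ℕ), Measure ξ →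
      ∃ C : ℝ, 0 < C ∧ ∃ H₀ : ℕ, ∀ H : ℕ, H₀ ≤ H →
      (({z : (Fin (D + 1) → ℤ) × (Fin (D + 1) → ℤ) | (∀ i, |z.1 i| ≤ H) ∧ (∀ i, |z.2 i| ≤ H) ∧
        ¬ (value ξ z.2 ≠ 0 ∧ ∀ (g : Fin r → Fin (d + 1) → ℤ) (f : Fin (d + 1) → ℤ),
        Small (Real.exp ((Real.log H) ^ β')) g f →
        NormalIn B (C * Real.log H) ((Real.log H) ^ (1 + δ)) ε (ε * Real.log H)
          (fun j => value ξ (g j) / value ξ f * (value ξ z.1 / value ξ z.2)))}.ncard : ℕ) : ℝ) ≤
        Real.exp (-(Real.log H) ^ β') * (2 * H + 1) ^ (2 * (D + 1)) := by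
    intro β' hβ' hδβ' ξ D hξ
    obtain ⟨C, hC, H₀, h⟩ := Pool.Agent.N586.GF.fr_main
      (Pool.Agent.N586.GF.sum3 Pool.Agent.N586.KO.tn4)
      (Pool.Agent.N586.JT.bt Pool.Agent.N586.JT.bw) ξ D d r B (hξ D) (hξ d) δ β' hδ hβ' hδβ' hr ε hε
    refine ⟨C, hC, H₀, fun H hH => le_trans (Nat.cast_le.2 ?_) (h H hH)⟩
    refine Set.ncard_le_ncard ?_ ?_
    · rintro z ⟨h1, h2, h3⟩
      refine ⟨h1, h2, fun h4 => h3 ⟨h4.1, fun g f hgf => ?_⟩⟩
      exact normalIn_of rfl (h4.2 g f hgf)
    · refine (((Set.Finite.pi' fun _ : Fin (D + 1) => Set.finite_Icc (-(H : ℤ)) H).prod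
        (Set.Finite.pi' fun _ : Fin (D + 1) => Set.finite_Icc (-(H : ℤ)) H))).subset ?_
      rintro z ⟨h1, h2, -⟩
      exact ⟨fun i => abs_le.1 (h1 i), fun i => abs_le.1 (h2 i)⟩
  refine ⟨?_, hgen β hβ hδβ, ?_⟩
  · -- rational multiples
    have hβ'1 : β < (β + (1 - 2 * δ)) / 2 := by linarith
    set β' : ℝ := (β + (1 - 2 * δ)) / 2 with hβ'
    obtain ⟨C, hC, H₀, h⟩ := hgen β' (by linarith) (by rw [hβ']; linarith) Real.pi 0
      (measure_of_measT Pool.Agent.TH456.TM.measT_pi)
    have hev : ∀ᶠ H : ℕ in Filter.atTop, (Real.log H) ^ β + Real.log 9 ≤ (Real.log H) ^ β' := by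
      have hlog : Filter.Tendsto (fun H : ℕ => Real.log H) Filter.atTop Filter.atTop :=
        Real.tendsto_log_atTop.comp tendsto_natCast_atTop_atTop
      have h1 : Filter.Tendsto (fun H : ℕ => (Real.log H) ^ β) Filter.atTop Filter.atTop :=
        (tendsto_rpow_atTop hβ).comp hlog
      have h2 : Filter.Tendsto (fun H : ℕ => (Real.log H) ^ (β' - β)) Filter.atTop Filter.atTop :=
        (tendsto_rpow_atTop (by linarith)).comp hlog
      filter_upwards [h1.eventually_ge_atTop (Real.log 9), h2.eventually_ge_atTop 2,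
        hlog.eventually_gt_atTop 0] with H h3 h4 h5
      have h6 : (Real.log H) ^ β' = (Real.log H) ^ (β' - β) * (Real.log H) ^ β := by
        rw [← Real.rpow_add h5]
        congr 1
        ring
      rw [h6]
      have h7 : 2 * (Real.log H) ^ β ≤ (Real.log H) ^ (β' - β) * (Real.log H) ^ β :=
        mul_le_mul_of_nonneg_right h4 (Real.rpow_nonneg h5.le _)
      linarith
    obtain ⟨H₁, hH₁⟩ := Filter.eventually_atTop.1 hev
    refine ⟨C, hC, max (max H₀ H₁) 3, fun H hH => ?_⟩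
    have hH3 : 3 ≤ H := (le_max_right _ _).trans hH
    have hH0 : H₀ ≤ H := (le_max_left _ _).trans ((le_max_left _ _).trans hH)
    have hH1 : H₁ ≤ H := (le_max_right _ _).trans ((le_max_left _ _).trans hH)
    have hHR : (3 : ℝ) ≤ H := by exact_mod_cast hH3
    have h1 := h H hH0
    have h2 := hH₁ H hH1
    have hlog0 : 0 ≤ Real.log H := Real.log_nonneg (by linarith)
    have hVV : Real.exp ((Real.log H) ^ β) ≤ Real.exp ((Real.log H) ^ β') := by
      apply Real.exp_le_exp.2
      have : (0 : ℝ) ≤ Real.log 9 := Real.log_nonneg (by norm_num)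
      linarith
    have h3 : ({z : ℕ × ℕ | 1 ≤ z.1 ∧ z.1 ≤ H ∧ 1 ≤ z.2 ∧ z.2 ≤ H ∧
        ¬ ∀ g : Fin r → Fin (d + 1) → ℤ,
        (∀ j i, |(g j i : ℝ)| ≤ Real.exp ((Real.log H) ^ β)) → LinearIndependent ℤ g →
        NormalIn B (C * Real.log H) ((Real.log H) ^ (1 + δ)) ε (ε * Real.log H)
          (fun j => (z.1 : ℝ) / z.2 * value Real.pi (g j))}.ncard) ≤
        ({z : (Fin (0 + 1) → ℤ) × (Fin (0 + 1) → ℤ) | (∀ i, |z.1 i| ≤ H) ∧ (∀ i, |z.2 i| ≤ H) ∧
        ¬ (value Real.pi z.2 ≠ 0 ∧ ∀ (g : Fin r → Fin (d + 1) → ℤ) (f : Fin (d + 1) → ℤ),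
        Small (Real.exp ((Real.log H) ^ β')) g f →
        NormalIn B (C * Real.log H) ((Real.log H) ^ (1 + δ)) ε (ε * Real.log H)
          (fun j => value Real.pi (g j) / value Real.pi f *
            (value Real.pi z.1 / value Real.pi z.2)))}.ncard) := by
      refine Set.ncard_le_ncard_of_injOn
        (fun z : ℕ × ℕ => ((fun _ => (z.1 : ℤ), fun _ => (z.2 : ℤ)) :
          (Fin (0 + 1) → ℤ) × (Fin (0 + 1) → ℤ))) ?_ ?_ ?_
      · rintro z ⟨h4, h5, h6, h7, h8⟩
        refine ⟨fun i => ?_, fun i => ?_, fun h9 => h8 fun g hg hind => ?_⟩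
        · show |((z.1 : ℕ) : ℤ)| ≤ (H : ℤ)
          rw [abs_of_nonneg (by positivity)]
          exact_mod_cast h5
        · show |((z.2 : ℕ) : ℤ)| ≤ (H : ℤ)
          rw [abs_of_nonneg (by positivity)]
          exact_mod_cast h7
        · have h10 := h9.2 g (Pi.single 0 1) ⟨fun j i => (hg j i).trans hVV, fun i => ?_, ?_, hind⟩
          · have h11 : (fun j => (z.1 : ℝ) / z.2 * value Real.pi (g j)) = fun j =>
                value Real.pi (g j) / value Real.pi (Pi.single 0 1 : Fin (d + 1) → ℤ) *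
                  (value Real.pi ((fun _ => (z.1 : ℤ)) : Fin (0 + 1) → ℤ) /
                    value Real.pi ((fun _ => (z.2 : ℤ)) : Fin (0 + 1) → ℤ)) := by
              funext j
              have h12 : value Real.pi (Pi.single 0 1 : Fin (d + 1) → ℤ) = 1 := by
                unfold value
                rw [Finset.sum_eq_single 0]
                · simp
                · intro i _ hi
                  rw [Pi.single_eq_of_ne hi]
                  simp
                · intro h13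
                  exact absurd (Finset.mem_univ _) h13
              have h13 : ∀ a : ℕ, value Real.pi ((fun _ => (a : ℤ)) : Fin (0 + 1) → ℤ) = a := by
                intro a
                unfold value
                simp
              rw [h12, h13, h13, div_one, mul_comm]
            rw [h11]
            exact h10
          · rcases eq_or_ne i 0 with rfl | hi
            · rw [Pi.single_eq_same, Int.cast_one, abs_one]
              exact Real.one_le_exp (Real.rpow_nonneg hlog0 _)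
            · rw [Pi.single_eq_of_ne hi, Int.cast_zero, abs_zero]
              exact Real.exp_nonneg _
          · intro h11
            have h12 := congrFun h11 0
            rw [Pi.single_eq_same] at h12
            exact one_ne_zero h12
      · intro z _ z' _ hzz
        have h4 : ((z.1 : ℕ) : ℤ) = ((z'.1 : ℕ) : ℤ) := congrFun (congrArg Prod.fst hzz) 0
        have h5 : ((z.2 : ℕ) : ℤ) = ((z'.2 : ℕ) : ℤ) := congrFun (congrArg Prod.snd hzz) 0
        ext
        · exact_mod_cast h4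
        · exact_mod_cast h5
      · refine (((Set.Finite.pi' fun _ : Fin (0 + 1) => Set.finite_Icc (-(H : ℤ)) H).prod
          (Set.Finite.pi' fun _ : Fin (0 + 1) => Set.finite_Icc (-(H : ℤ)) H))).subset ?_
        rintro z ⟨h1, h2, -⟩
        exact ⟨fun i => abs_le.1 (h1 i), fun i => abs_le.1 (h2 i)⟩
    refine (Nat.cast_le.2 h3).trans (h1.trans ?_)
    have h4 : Real.exp (-(Real.log H) ^ β') * 9 ≤ Real.exp (-(Real.log H) ^ β) := by
      calc Real.exp (-(Real.log H) ^ β') * 9 = Real.exp (-(Real.log H) ^ β' + Real.log 9) := by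
            rw [Real.exp_add, Real.exp_log (by norm_num)]
        _ ≤ Real.exp (-(Real.log H) ^ β) := Real.exp_le_exp.2 (by linarith)
    have h5 : (2 * (H : ℝ) + 1) ^ (2 * (0 + 1)) ≤ 9 * (H : ℝ) ^ 2 := by
      have h6 : 2 * (H : ℝ) + 1 ≤ 3 * H := by linarith
      calc (2 * (H : ℝ) + 1) ^ (2 * (0 + 1)) ≤ (3 * (H : ℝ)) ^ (2 * (0 + 1)) :=
            pow_le_pow_left₀ (by positivity) h6 _
        _ = 9 * (H : ℝ) ^ 2 := by ring
    calc Real.exp (-(Real.log H) ^ β') * (2 * (H : ℝ) + 1) ^ (2 * (0 + 1))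
        ≤ Real.exp (-(Real.log H) ^ β') * (9 * (H : ℝ) ^ 2) :=
          mul_le_mul_of_nonneg_left h5 (Real.exp_nonneg _)
      _ = Real.exp (-(Real.log H) ^ β') * 9 * (H : ℝ) ^ 2 := by ring
      _ ≤ _ := mul_le_mul_of_nonneg_right h4 (by positivity)
  · rintro ξ x (rfl | rfl | ⟨a, ha, ha1, rfl⟩) h1 h2
    · exact measure_of_isAlgebraic Pool.Agent.TH456.TM.measT_pi h1 h2
    · exact measure_of_isAlgebraic Pool.Agent.TH456.TM.measT_e h1 h2
    · exact measure_of_isAlgebraic (Pool.Agent.TH456.TM.measT_real_log a ha ha1) h1 h2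

end Pool.Agent.Results.MP_57632f_nt.FieldsOfPi
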