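import Pool.Agent.N915.HT.Fin

/-! # Half of the time: normality from one binary statistic of the multiples

We prove that a real number `x` is normal in base `b` if and only if for all positive integers `m` the
numbers `m x b^n`, `n ≥ 0`, are, modulo one, in the interval `[1/4, 3/4)` for half of the `n`; and also
if and only if they are in `[1/3, 2/3)` for one third of the `n`. The multipliers `m` which are not
divisible by `b` suffice. In terms of digits, with one number to be checked for every multiple:

* `x` is normal in base `2` if and only if in each of the numbers `x, 3x, 5x, 7x, …` half of the digits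
  differ from the next one;
* `x` is normal in base `3` if and only if in each of the numbers `m x`, `3 ∤ m`, one third of the digits
  are ones;
* `π` is normal in base `10` if and only if in each of the numbers `m π`, `10 ∤ m`, half of the blocks of
  two digits are between `25` and `74`.

For every base `b` and length `k` with `b ^ k ≥ 3` it suffices to know the total frequencies of every
word `w` of length `k` and its complement `(b - 1 - w_0) … (b - 1 - w_(k-1))` in the multiples. All
this is effective at every single stage `N`.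

For base `2` the frequency of the digit `1` in all multiples does not suffice: all multiples of the
Thue–Morse number are simply normal in base `2` (`MP_57632f_nt.SimplyNormalMultiples`).

Proof. All these statistics are even functions of the point modulo one, so that only the cosines can be
recovered from them, by the inversion formula `∑_m μ(m) χ(m) Φ(m y) / m` with an odd character `χ`, which
converges uniformly by the estimate of Davenport. So we get that all sums `∑_{n < N} cos(2π h x b^n)` are
small. But the square of the absolute value of `∑_{k < K} e(h x b^(n+k))` is a polynomial in cosines, with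
the frequencies `h (b^l - b^k)`, `l > k`, so that the method of van der Corput gives that the sums
`∑_{n < N} e(h x b^n)` are small too. For general sequences in place of `x b^n` this is false.
-/

set_option autoImplicit false

open Filter Topology

namespace Pool.Agent.Results.MP_57632f_nt.HalfOfTheTime

/-- the `i`-th digit of `x` after the point in base `b` -/
noncomputable def digit (b : ℕ) (x : ℝ) (i : ℕ) : ℤ := ⌊x * (b : ℝ) ^ i⌋ % (b : ℤ)

/-- the number of `1 ≤ i ≤ N` with `d_i d_(i+1) … d_(i+k-1) = w_0 w_1 … w_(k-1)`, for the digits `d_i`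
of `x` in base `b` -/
noncomputable def count (b : ℕ) (x : ℝ) (k : ℕ) (w : ℕ → ℤ) (N : ℕ) : ℕ :=
  ((Finset.Icc 1 N).filter fun i => ∀ j < k, digit b x (i + j) = w j).card

/-- `w_0 … w_(k-1)` is a word over the digits `0, …, b - 1` -/
def IsWord (b k : ℕ) (w : ℕ → ℤ) : Prop := ∀ j < k, 0 ≤ w j ∧ w j < b

/-- all words of length `k` have the frequency `b ^ (-k)` in `x` -/
def Freq (b k : ℕ) (x : ℝ) : Prop := ∀ w : ℕ → ℤ, IsWord b k w →
  Tendsto (fun N : ℕ => (count b x k w N : ℝ) / (N : ℝ)) atTop (𝓝 (1 / (b : ℝ) ^ k))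

/-- `x` is normal in base `b` -/
def Normal (b : ℕ) (x : ℝ) : Prop := ∀ k : ℕ, 1 ≤ k → Freq b k x

/-- the number of `n < N` for which the fractional part of `u n` lies in `[s, t)` -/
noncomputable def visits (u : ℕ → ℝ) (s t : ℝ) (N : ℕ) : ℕ :=
  ((Finset.range N).filter fun n => s ≤ Int.fract (u n) ∧ Int.fract (u n) < t).card

open Classical in
/-- the set of the positive integers with the property `p` has the density `α` -/
noncomputable def HasDensity (p : ℕ → Prop) (α : ℝ) : Prop :=
  Tendsto (fun N : ℕ => (((Finset.Icc 1 N).filter p).card : ℝ) / (N : ℝ)) atTop (𝓝 α)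

/-- (1) For `b ≥ 2`, a real number `x` is normal in base `b` if and only if for all `m` not divisible by
`b` the numbers `m x b^n`, `n ≥ 0`, visit the interval `[1/4, 3/4)` modulo one with the frequency `1/2`,
and if and only if for all these `m` they visit `[1/3, 2/3)` with the frequency `1/3`.
(2) For all `b ≥ 2` and `ε > 0` there are `Q ≥ 1` and `δ > 0` such that for all real `x` and all `N`: if
for `1 ≤ m ≤ Q` the number of the visits of `m x b^n`, `n < N`, to `[1/4, 3/4)` is `N / 2` up to `δ N`, or
for `1 ≤ m ≤ Q` the number of the visits to `[1/3, 2/3)` is `N / 3` up to `δ N`, then every word `w` of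
every length `l` occurs in the first `N` places of `x` in base `b` the right number `N / b ^ l` of times
up to `ε N`.
(3) In terms of digits: for even `b`, `x` is normal in base `b` if and only if for all `m` not divisible
by `b`, half of the blocks `v = b d_i + d_(i+1)` of two digits of `m x` satisfy `b² / 4 ≤ v < 3 b² / 4`.
If `4 ∣ b`: if and only if for all these `m` half of the digits `d` of `m x` satisfy
`b / 4 ≤ d < 3 b / 4`. If `3 ∣ b`: if and only if for all these `m` one third of the digits `d` of `m x`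
satisfy `b / 3 ≤ d < 2 b / 3`.
(4) A real number `x` is normal in base `2` if and only if for all odd `m` half of the digits of `m x`
differ from the next digit; normal in base `3` if and only if for all `m` not divisible by `3` the digit
`1` has the frequency `1/3` in `m x`; normal in base `10` if and only if for all `m` not divisible by `10`
half of the blocks of two digits of `m x` are between `25` and `74`.
In particular `π` is normal in base `10` if and only if for all `m` not divisible by `10` half of the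
blocks of two digits of `m π` are between `25` and `74`.
(5) For `b ≥ 2` and `b ^ k ≥ 3`, `x` is normal in base `b` if and only if for all `m` not divisible by `b`
and all words `w` of length `k`, the word `w` and its complement `w'`, `w'_j = b - 1 - w_j`, have together
the frequency `2 / b ^ k` in `m x`. -/
theorem result :
    (∀ b : ℕ, 2 ≤ b → ∀ x : ℝ,
      (Normal b x ↔ ∀ m : ℕ, ¬ b ∣ m → Tendsto (fun N : ℕ =>
        (visits (fun n => (m : ℝ) * x * (b : ℝ) ^ n) (1 / 4) (3 / 4) N : ℝ) / N) atTop
          (𝓝 (1 / 2))) ∧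
      (Normal b x ↔ ∀ m : ℕ, ¬ b ∣ m → Tendsto (fun N : ℕ =>
        (visits (fun n => (m : ℝ) * x * (b : ℝ) ^ n) (1 / 3) (2 / 3) N : ℝ) / N) atTop
          (𝓝 (1 / 3)))) ∧
    (∀ b : ℕ, 2 ≤ b → ∀ ε : ℝ, 0 < ε → ∃ Q : ℕ, 1 ≤ Q ∧ ∃ δ : ℝ, 0 < δ ∧ ∀ (x : ℝ) (N : ℕ),
      ((∀ m : ℕ, 1 ≤ m → m ≤ Q →
        |(visits (fun n => (m : ℝ) * x * (b : ℝ) ^ n) (1 / 4) (3 / 4) N : ℝ) - N / 2| ≤ δ * N) ∨
      (∀ m : ℕ, 1 ≤ m → m ≤ Q →
        |(visits (fun n => (m : ℝ) * x * (b : ℝ) ^ n) (1 / 3) (2 / 3) N : ℝ) - N / 3| ≤ δ * N)) →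
      ∀ (l : ℕ) (w : ℕ → ℤ), IsWord b l w →
        |(count b x l w N : ℝ) - N / (b : ℝ) ^ l| ≤ ε * N) ∧
    (∀ b : ℕ, 2 ≤ b → ∀ x : ℝ,
      (2 ∣ b → (Normal b x ↔ ∀ m : ℕ, ¬ b ∣ m → HasDensity (fun i =>
        (b : ℤ) ^ 2 ≤ 4 * (b * digit b (m * x) i + digit b (m * x) (i + 1)) ∧
          4 * (b * digit b (m * x) i + digit b (m * x) (i + 1)) < 3 * (b : ℤ) ^ 2) (1 / 2))) ∧
      (4 ∣ b → (Normal b x ↔ ∀ m : ℕ, ¬ b ∣ m → HasDensity (fun i =>
        (b : ℤ) ≤ 4 * digit b (m * x) i ∧ 4 * digit b (m * x) i < 3 * (b : ℤ)) (1 / 2))) ∧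
      (3 ∣ b → (Normal b x ↔ ∀ m : ℕ, ¬ b ∣ m → HasDensity (fun i =>
        (b : ℤ) ≤ 3 * digit b (m * x) i ∧ 3 * digit b (m * x) i < 2 * (b : ℤ)) (1 / 3)))) ∧
    (∀ x : ℝ,
      (Normal 2 x ↔ ∀ m : ℕ, Odd m → HasDensity (fun i =>
        digit 2 (m * x) i ≠ digit 2 (m * x) (i + 1)) (1 / 2)) ∧
      (Normal 3 x ↔ ∀ m : ℕ, ¬ 3 ∣ m → HasDensity (fun i => digit 3 (m * x) i = 1) (1 / 3)) ∧
      (Normal 10 x ↔ ∀ m : ℕ, ¬ 10 ∣ m → HasDensity (fun i =>
        25 ≤ 10 * digit 10 (m * x) i + digit 10 (m * x) (i + 1) ∧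
          10 * digit 10 (m * x) i + digit 10 (m * x) (i + 1) ≤ 74) (1 / 2))) ∧
    (Normal 10 Real.pi ↔ ∀ m : ℕ, ¬ 10 ∣ m → HasDensity (fun i =>
        25 ≤ 10 * digit 10 (m * Real.pi) i + digit 10 (m * Real.pi) (i + 1) ∧
          10 * digit 10 (m * Real.pi) i + digit 10 (m * Real.pi) (i + 1) ≤ 74) (1 / 2)) ∧
    (∀ b k : ℕ, 2 ≤ b → 3 ≤ b ^ k → ∀ x : ℝ, Normal b x ↔ ∀ m : ℕ, ¬ b ∣ m →
      ∀ w : ℕ → ℤ, IsWord b k w → Tendsto (fun N : ℕ =>
        ((count b (m * x) k w N + count b (m * x) k (fun j => b - 1 - w j) N : ℕ) : ℝ) / (N : ℝ))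
          atTop (𝓝 (2 / (b : ℝ) ^ k))) := by
  have hbound := Pool.Agent.N915.HT.digit_bounds
  have h10 : ∀ x : ℝ, Normal 10 x ↔ ∀ m : ℕ, ¬ 10 ∣ m → HasDensity (fun i =>
        25 ≤ 10 * digit 10 (m * x) i + digit 10 (m * x) (i + 1) ∧
          10 * digit 10 (m * x) i + digit 10 (m * x) (i + 1) ≤ 74) (1 / 2) := fun x =>
    Pool.Agent.N915.HT.normal_iff_test 10 (by norm_num) (1 / 4) (by norm_num) (by norm_num)
      Pool.Agent.N915.HT.good_quarter (1 / 2) (by norm_num)
      (fun y i => 25 ≤ 10 * digit 10 y i + digit 10 y (i + 1) ∧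
        10 * digit 10 y i + digit 10 y (i + 1) ≤ 74)
      (fun y n => by
        rw [← Pool.Agent.N915.HT.pair_test 10 (by norm_num) (by norm_num) y n]
        have e : ∀ i, digit 10 y i = Pool.Agent.N915.ML.digit 10 y i := fun _ => rfl
        rw [e, e]
        push_cast
        omega) x
  refine ⟨fun b hb x => ⟨?_, ?_⟩, fun b hb ε hε => Pool.Agent.N915.HT.stage_words b hb ε hε,
    fun b hb x => ⟨fun hd => ?_, fun hd => ?_, fun hd => ?_⟩, fun x => ⟨?_, ?_, h10 x⟩,
    h10 Real.pi, fun b k hb hbk x => Pool.Agent.N915.HT.normal_iff_pairs b k hb hbk x⟩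
  · have h := Pool.Agent.N915.HT.normal_iff_good b hb (1 / 4) (by norm_num) (by norm_num)
      Pool.Agent.N915.HT.good_quarter x
    rw [show (1 - 1 / 4 - 1 / 4 : ℝ) = 1 / 2 by norm_num,
      show (1 - 1 / 4 : ℝ) = 3 / 4 by norm_num] at h
    exact h
  · have h := Pool.Agent.N915.HT.normal_iff_good b hb (1 / 3) (by norm_num) (by norm_num)
      Pool.Agent.N915.HT.good_third x
    rw [show (1 - 1 / 3 - 1 / 3 : ℝ) = 1 / 3 by norm_num,
      show (1 - 1 / 3 : ℝ) = 2 / 3 by norm_num] at h
    exact h
  · exact Pool.Agent.N915.HT.normal_iff_test b hb (1 / 4) (by norm_num) (by norm_num)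
      Pool.Agent.N915.HT.good_quarter (1 / 2) (by norm_num)
      (fun y i => (b : ℤ) ^ 2 ≤ 4 * (b * digit b y i + digit b y (i + 1)) ∧
          4 * (b * digit b y i + digit b y (i + 1)) < 3 * (b : ℤ) ^ 2)
      (fun y n => Pool.Agent.N915.HT.pair_test b hb hd y n) x
  · exact Pool.Agent.N915.HT.normal_iff_test b hb (1 / 4) (by norm_num) (by norm_num)
      Pool.Agent.N915.HT.good_quarter (1 / 2) (by norm_num)
      (fun y i => (b : ℤ) ≤ 4 * digit b y i ∧ 4 * digit b y i < 3 * (b : ℤ))
      (fun y n => Pool.Agent.N915.HT.quarter_test b hb hd y n) x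
  · exact Pool.Agent.N915.HT.normal_iff_test b hb (1 / 3) (by norm_num) (by norm_num)
      Pool.Agent.N915.HT.good_third (1 / 3) (by norm_num)
      (fun y i => (b : ℤ) ≤ 3 * digit b y i ∧ 3 * digit b y i < 2 * (b : ℤ))
      (fun y n => Pool.Agent.N915.HT.third_test b hb hd y n) x
  · have h := Pool.Agent.N915.HT.normal_iff_test 2 le_rfl (1 / 4) (by norm_num) (by norm_num)
      Pool.Agent.N915.HT.good_quarter (1 / 2) (by norm_num)
      (fun y i => digit 2 y i ≠ digit 2 y (i + 1))
      (fun y n => by
        rw [← Pool.Agent.N915.HT.pair_test 2 le_rfl (by norm_num) y n]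
        have h1 := hbound 2 (by norm_num) y (n + 1)
        have h2 := hbound 2 (by norm_num) y (n + 1 + 1)
        have e : ∀ i, digit 2 y i = Pool.Agent.N915.ML.digit 2 y i := fun _ => rfl
        rw [e, e]
        push_cast at h1 h2 ⊢
        omega) x
    refine h.trans (forall_congr' fun m => ?_)
    rw [Nat.odd_iff, Nat.two_dvd_ne_zero]
    exact Iff.rfl
  · exact Pool.Agent.N915.HT.normal_iff_test 3 (by norm_num) (1 / 3) (by norm_num) (by norm_num)
      Pool.Agent.N915.HT.good_third (1 / 3) (by norm_num)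
      (fun y i => digit 3 y i = 1)
      (fun y n => by
        rw [← Pool.Agent.N915.HT.third_test 3 (by norm_num) (by norm_num) y n]
        have e : ∀ i, digit 3 y i = Pool.Agent.N915.ML.digit 3 y i := fun _ => rfl
        rw [e]
        push_cast
        omega) x

end Pool.Agent.Results.MP_57632f_nt.HalfOfTheTime
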