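import Pool.Agent.N710.PW.Gen

/-! # Words of digits in polynomial and in prime multiples of an irrational number

Mahler proved in 1973 that for every irrational `x` and every word `w` of digits in base `b` there are
multiples `m x` in which `w` stands infinitely often; Berend and Boshernitzan gave the bound `2 b^(k+1)`
for the first such `m`, where `k` is the length of `w`. We prove:

* (primes) Let `h` be a nonconstant integer polynomial. For all irrational `x`, all real `y`, all `b, k`
  and `M`, all primes `p ≤ M` but at most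
  `C b^k M exp (- c log M / (k b^k log b)) = C b^k M^(1 - c / (k b^k log b))`
  are such that *every* word of `k` digits in base `b` stands infinitely often in `y + h(p) x`. The
  constants `c, C` depend on `h` only; in particular the statement is uniform in `x` and `y`, and words
  with up to `(1 - ε) log log M / log b` digits are allowed.
* (polynomials) The same holds for the numbers `f(n)`, `J ≤ n < J + M`, where `f` is a real polynomial
  with at least one irrational coefficient besides the constant one, the constants depending on `f`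
  only; if the leading coefficient is irrational then they depend on the degree only.
* (words which stand often) If `x`, respectively the leading coefficient of `f`, is not a Liouville
  number, then for all but `C M^(1 - c)` of the primes `p ≤ M`, respectively of the `n` in a window of
  length `M`, every word of `k` digits starts at no fewer than `c log M · log (N / (C log M))` of the
  first `N` places, for every `N`. This holds for `x = π`, `x = e` and `x = √2`.

Proof. Let `H = B^L`, `B = b^k`, be a small power of `M`. If the exponential sums over the family at all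
the frequencies `h b^i`, `0 < |h| < H`, are small then by a weighted Fejér kernel argument no block of
`L` consecutive words behind the place `i` is taken by more than `10 / H` of the members, while only
`B (B - 1)^L`, up to a factor `2^L`, of the blocks avoid a word of length `k` at the `L` aligned places.
If one of the sums is large then by Weyl's inequality, respectively by the minor arc estimates over
primes, `b^i x` is very near to a rational number with a small denominator. By a chain argument a run
of consecutive bad places `i, …, i + n` makes `x` itself closer to a rational number with denominator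
`O(b^i H^A)` than `b^(-i-n)`, so it ends if `x` is irrational, and it has length `O(i)` if `x` is not a
Liouville number. In the latter case there are `≥ c log (N / log M)` disjoint good blocks of length
`c log M` among the first `N` places, and in most members each word stands `≥ c log M` times in many of
them. -/

set_option autoImplicit false

open Polynomial

namespace Pool.Agent.Results.MP_57632f_nt.PrimeMultiples

/-- The word of `k` digits in base `b` with the value `W < b ^ k` stands in `y` behind the place `i`:
read as a number in base `b`, the digits of `y` at the places `i + 1, …, i + k` after the point are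
`W`. -/
def Stands (b k W : ℕ) (y : ℝ) (i : ℕ) : Prop := ⌊(b : ℝ) ^ (i + k) * y⌋ % ((b : ℤ) ^ k) = (W : ℤ)

/-- every word of `k` digits in base `b` stands infinitely often in `y` -/
def Rich (b k : ℕ) (y : ℝ) : Prop := ∀ W < b ^ k, {i | Stands b k W y i}.Infinite

/-- every word of `k` digits in base `b` starts at no fewer than `T` of the first `N` places of `y` -/
def Often (b k N : ℕ) (T y : ℝ) : Prop := ∀ W < b ^ k, T ≤ ({i | i < N ∧ Stands b k W y i}.ncard : ℝ)

/-- the bound for the number of exceptions -/
noncomputable def bound (c C : ℝ) (b k M : ℕ) : ℝ :=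
  C * (b : ℝ) ^ k * M * Real.exp (-(c * Real.log M / (k * (b : ℝ) ^ k * Real.log b)))

lemma often_iff (b k N : ℕ) (T y : ℝ) : ¬ Often b k N T y ↔
    ∃ W < b ^ k, (Pool.Agent.N710.PW.cnt b k W y N : ℝ) < T := by
  classical
  unfold Often
  push Not
  have : ∀ W, {i | i < N ∧ Stands b k W y i}.ncard = Pool.Agent.N710.PW.cnt b k W y N := by
    intro W
    unfold Pool.Agent.N710.PW.cnt
    rw [← Set.ncard_coe_finset]
    congr 1
    ext i
    simp only [Finset.coe_filter, Finset.mem_range]
    rfl
  simp only [this]

theorem result :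
    -- integer polynomials at primes
    (∀ h : ℤ[X], 1 ≤ h.natDegree → ∃ c C : ℝ, 0 < c ∧ 0 < C ∧
      ∀ x y : ℝ, Irrational x → ∀ b k M : ℕ, 2 ≤ b → 1 ≤ k → 1 ≤ M →
        ({p : ℕ | p.Prime ∧ p ≤ M ∧ ¬ Rich b k (y + (h.eval (p : ℤ) : ℤ) * x)}.ncard : ℝ) ≤ bound c C b k M) ∧
    -- real polynomials at integers
    (∀ f : ℝ[X], (∃ j, 1 ≤ j ∧ Irrational (f.coeff j)) → ∃ c C : ℝ, 0 < c ∧ 0 < C ∧
      ∀ b k J M : ℕ, 2 ≤ b → 1 ≤ k → 1 ≤ M →
        ({n : ℕ | J ≤ n ∧ n < J + M ∧ ¬ Rich b k (f.eval (n : ℝ))}.ncard : ℝ) ≤ bound c C b k M) ∧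
    -- uniformity in the polynomials with irrational leading coefficient
    (∀ d : ℕ, 1 ≤ d → ∃ c C : ℝ, 0 < c ∧ 0 < C ∧ ∀ f : ℝ[X], f.natDegree = d → Irrational f.leadingCoeff →
      ∀ b k M : ℕ, 2 ≤ b → 1 ≤ k → 1 ≤ M →
        ({n : ℕ | n < M ∧ ¬ Rich b k (f.eval (n : ℝ))}.ncard : ℝ) ≤ bound c C b k M) ∧
    -- words which stand often, primes
    (∀ h : ℤ[X], 1 ≤ h.natDegree → ∀ x : ℝ, Irrational x → ¬ Liouville x → ∀ b k : ℕ, 2 ≤ b → 1 ≤ k →
      ∃ c C : ℝ, 0 < c ∧ 0 < C ∧ ∀ y : ℝ, ∀ M N : ℕ, 2 ≤ M →
        ({p : ℕ | p.Prime ∧ p ≤ M ∧ ¬ Often b k N (c * Real.log M * Real.log (N / (C * Real.log M)))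
          (y + (h.eval (p : ℤ) : ℤ) * x)}.ncard : ℝ) ≤ C * (M : ℝ) ^ (1 - c)) ∧
    -- words which stand often, real polynomials
    (∀ f : ℝ[X], 1 ≤ f.natDegree → Irrational f.leadingCoeff → ¬ Liouville f.leadingCoeff →
      ∀ b k : ℕ, 2 ≤ b → 1 ≤ k → ∃ c C : ℝ, 0 < c ∧ 0 < C ∧ ∀ J M N : ℕ, 2 ≤ M →
        ({n : ℕ | J ≤ n ∧ n < J + M ∧ ¬ Often b k N (c * Real.log M * Real.log (N / (C * Real.log M)))
          (f.eval (n : ℝ))}.ncard : ℝ) ≤ C * (M : ℝ) ^ (1 - c)) ∧
    -- the hypotheses hold for `π`, `e` and `√2`
    (Irrational Real.pi ∧ ¬ Liouville Real.pi) ∧ (Irrational (Real.exp 1) ∧ ¬ Liouville (Real.exp 1)) ∧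
    (Irrational (√2) ∧ ¬ Liouville (√2)) := by
  refine ⟨fun h hh => ?_, fun f hf => ?_, fun d hd => ?_, fun h hh x hx hL b k hb hk => ?_,
    fun f hf hx hL b k hb hk => ?_, Pool.Agent.H847R3.XpXq.pi_good, Pool.Agent.H847R3.XpXq.e_good,
    Pool.Agent.H847R3.XpXq.sqrt_two_good⟩
  · exact Pool.Agent.N710.PW.prime_inf h hh
  · exact Pool.Agent.N710.PW.gen_inf f hf
  · obtain ⟨c, C, hc, hC, h⟩ := Pool.Agent.N710.PW.poly_inf d hd
    refine ⟨c, C, hc, hC, fun f hf hirr b k M hb hk hM => h f hf.le ?_ b k M hb hk hM⟩
    rw [← hf]; exact hirr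
  · obtain ⟨μ, hμ⟩ := Pool.Agent.N710.PW.dio_of_good hx hL
    obtain ⟨c, C, hc, hC, h⟩ := Pool.Agent.N710.PW.prime_often h hh μ b k hb hk
    refine ⟨c, C, hc, by linarith, fun y M N hM => ?_⟩
    simp only [often_iff]
    exact h x y hμ M hM N
  · obtain ⟨μ, hμ⟩ := Pool.Agent.N710.PW.dio_of_good hx hL
    obtain ⟨c, C, hc, hC, h⟩ := Pool.Agent.N710.PW.poly_often f.natDegree hf μ b k hb hk
    refine ⟨c, C, hc, by linarith, fun J M N hM => ?_⟩
    simp only [often_iff]
    have hcomp : (f.comp (X + Polynomial.C (J : ℝ))).coeff f.natDegree = f.leadingCoeff := by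
      have h3 := coeff_comp_degree_mul_degree (p := f) (q := X + Polynomial.C (J : ℝ)) (by
        rw [natDegree_X_add_C]; omega)
      rwa [natDegree_X_add_C, mul_one, leadingCoeff_X_add_C, one_pow, mul_one] at h3
    have h1 := h (f.comp (X + Polynomial.C (J : ℝ))) (by rw [natDegree_comp, natDegree_X_add_C, mul_one])
      (by rw [hcomp]; exact hμ) M hM N
    refine le_trans ?_ h1
    have h2 : {n : ℕ | J ≤ n ∧ n < J + M ∧ ∃ W < b ^ k, (Pool.Agent.N710.PW.cnt b k W (f.eval (n : ℝ)) N : ℝ) <
        c * Real.log M * Real.log (N / (C * Real.log M))} ⊆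
        (fun n => J + n) '' {n : ℕ | n < M ∧ ∃ W < b ^ k, (Pool.Agent.N710.PW.cnt b k W
          ((f.comp (X + Polynomial.C (J : ℝ))).eval (n : ℝ)) N : ℝ) <
        c * Real.log M * Real.log (N / (C * Real.log M))} := by
      rintro n ⟨h1, h2, W, hW, h3⟩
      refine ⟨n - J, ⟨by omega, W, hW, ?_⟩, by simp only; omega⟩
      rw [eval_comp, eval_add, eval_X, eval_C, Nat.cast_sub h1, sub_add_cancel]
      exact h3
    have hfin : {n : ℕ | n < M ∧ ∃ W < b ^ k, (Pool.Agent.N710.PW.cnt b k W
          ((f.comp (X + Polynomial.C (J : ℝ))).eval (n : ℝ)) N : ℝ) <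
        c * Real.log M * Real.log (N / (C * Real.log M))}.Finite :=
      (Set.finite_lt_nat M).subset fun n hn => hn.1
    exact_mod_cast (Set.ncard_le_ncard h2 (hfin.image _)).trans (Set.ncard_image_le hfin)

end Pool.Agent.Results.MP_57632f_nt.PrimeMultiples
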